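import Pool.Agent.Lib.MP_4075bc_lc.PH.SigC

/-! # Lists, and coding of trees by words -/

namespace Pool.Agent.Lib.EC4075.PH

open D

/-- The tree as a list. -/
def toL : D → List D
  | D.nil => []
  | D.cons a b => a :: toL b

/-- The list as a tree. -/
def ofL : List D → D
  | [] => D.nil
  | a :: l => D.cons a (ofL l)

theorem toL_ofL (l : List D) : toL (ofL l) = l := by
  induction l with
  | nil => rfl
  | cons a l ih => simp [ofL, toL, ih]

theorem ofL_toL (x : D) : ofL (toL x) = x := by
  induction x with
  | nil => rfl
  | cons a b _ ih => simp [ofL, toL, ih]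

theorem length_toL (x : D) : (toL x).length = x.len := by
  induction x with
  | nil => rfl
  | cons a b _ ih => simp [D.len, toL, ih]

theorem iter_tl_toL (k : ℕ) (x : D) : toL (D.tl^[k] x) = (toL x).drop k := by
  induction k generalizing x with
  | zero => simp
  | succ k ih =>
    rw [Function.iterate_succ_apply, ih]
    cases x with
    | nil => simp [D.tl, toL]
    | cons a b => simp [D.tl, toL]

theorem hd_toL (x : D) : x.hd = (toL x).getD 0 D.nil := by
  cases x <;> rfl

theorem nth_toL (k : ℕ) (x : D) : (D.tl^[k] x).hd = (toL x).getD k D.nil := by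
  rw [hd_toL, iter_tl_toL, List.getD_eq_getElem?_getD, List.getD_eq_getElem?_getD,
    List.getElem?_drop, Nat.add_zero]

theorem size_take (x : D) (k : ℕ) : (ofL ((toL x).take k)).size ≤ x.size := by
  induction x generalizing k with
  | nil => simp [toL, ofL, D.size]
  | cons a b _ ih =>
    cases k with
    | zero => simp [ofL, D.size]
    | succ k =>
      simp only [toL, List.take_succ_cons, ofL, D.size]
      have := ih k
      omega

/-- Left folds along a list. -/
theorem FP.foldl {g i l : D → D} (hg : FP g) (hi : FP i) (hl : FP l) (b : D → ℕ) (hb : Poly b)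
    (hbd : ∀ x k, (((toL (l x)).take k).foldl (fun acc a => g (D.cons a acc)) (i x)).size ≤ b x) :
    FP (fun x => (toL (l x)).foldl (fun acc a => g (D.cons a acc)) (i x)) := by
  let st : D → D := fun z => D.cons z.hd.tl (g (D.cons z.hd.hd z.tl))
  have hst : FP st := FP.cons (FP.comp FP.tl FP.hd)
    (FP.comp hg (FP.cons (FP.comp FP.hd FP.hd) FP.tl))
  have key : ∀ (k : ℕ) (r acc : D), k ≤ (toL r).length → st^[k] (D.cons r acc) =
      D.cons (D.tl^[k] r) (((toL r).take k).foldl (fun acc a => g (D.cons a acc)) acc) := by
    intro k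
    induction k with
    | zero => intro r acc _; simp
    | succ k ih =>
      intro r acc hk
      rw [Function.iterate_succ_apply]
      cases r with
      | nil => simp [toL] at hk
      | cons a r =>
        have h1 : st (D.cons (D.cons a r) acc) = D.cons r (g (D.cons a acc)) := rfl
        rw [h1, ih r _ (by simpa [toL] using hk), Function.iterate_succ_apply]
        simp [toL, D.tl]
  have h := FP.iter' hst (g := fun x => D.cons (l x) (i x)) (h := l) (FP.cons hl hi) hl
    (fun x => (l x).size + b x + 1) ((hl.poly.add hb).add (Poly.const 1)) (by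
      intro x k hk
      rw [← length_toL] at hk
      rw [key k _ _ hk]
      simp only [D.size]
      have h1 := size_iter_tl k (l x)
      have h2 := hbd x k
      omega)
  have h2 := FP.comp FP.tl h
  have e : (fun x => (st^[(l x).len] (D.cons (l x) (i x))).tl) =
      fun x => (toL (l x)).foldl (fun acc a => g (D.cons a acc)) (i x) := by
    funext x
    rw [← length_toL, key _ _ _ le_rfl, List.take_length]
    rfl
  rw [e] at h2
  exact h2

/-- Reversal of a list. -/
def rev (x : D) : D := ofL (toL x).reverse

theorem foldl_cons (l : List D) (acc : D) :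
    l.foldl (fun acc a => D.cons a acc) acc = ofL (l.reverse ++ toL acc) := by
  induction l generalizing acc with
  | nil => simp [ofL_toL]
  | cons a l ih =>
    rw [List.foldl_cons, ih]
    simp [toL]

theorem size_ofL_append (l l' : List D) : (ofL (l ++ l')).size = (ofL l).size + (ofL l').size := by
  induction l with
  | nil => simp [ofL, D.size]
  | cons a l ih => simp only [List.cons_append, ofL, D.size, ih]; omega

theorem size_ofL_reverse (l : List D) : (ofL l.reverse).size = (ofL l).size := by
  induction l with
  | nil => simp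
  | cons a l ih =>
    rw [List.reverse_cons, size_ofL_append, ih]
    simp only [ofL, D.size]; omega

theorem FP.rev {f : D → D} (hf : FP f) : FP (fun x => rev (f x)) := by
  have h := FP.foldl (g := fun z => z) FP.id FP.nil hf (fun x => (f x).size) hf.poly (by
    intro x k
    rw [foldl_cons]
    simp only [toL, List.append_nil]
    rw [size_ofL_reverse]
    exact size_take _ _)
  have e : (fun x => (toL (f x)).foldl (fun acc a => D.cons a acc) D.nil) =
      fun x => PH.rev (f x) := by
    funext x
    rw [foldl_cons]
    simp [toL, PH.rev]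
  rw [e] at h
  exact h

theorem size_iter_le {f : D → D} {c : ℕ} (h : ∀ z, (f z).size ≤ z.size + c) (k : ℕ) (z : D) :
    (f^[k] z).size ≤ z.size + c * k := by
  induction k with
  | zero => simp
  | succ k ih =>
    rw [Function.iterate_succ_apply', Nat.mul_succ]
    have := h (f^[k] z)
    omega

theorem size_hd_tl (x : D) : x.hd.size + x.tl.size ≤ x.size := by
  cases x with
  | nil => simp [D.hd, D.tl, D.size]
  | cons a b => simp only [D.hd, D.tl, D.size]; omega

section
variable {s : ℕ}

theorem enc_eq (x : List (Fin s)) : enc x = ofL (x.map (fun a => unary a.val)) := by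
  induction x with
  | nil => rfl
  | cons a x ih => simp [enc, ofL, ih]

/-- The word coding a tree: preorder traversal. -/
def cod (z₀ z₁ : Fin s) : D → List (Fin s)
  | D.nil => [z₀]
  | D.cons a b => z₁ :: (cod z₀ z₁ a ++ cod z₀ z₁ b)

/-- One step of decoding. -/
def dstep (z : D) : D :=
  cond z.hd (D.cons D.nil z.tl) (D.cons (D.cons z.tl.hd z.tl.tl.hd) z.tl.tl.tl)

/-- Decoding. -/
def dec (x : List (Fin s)) : D :=
  (x.foldr (fun a S => dstep (D.cons (unary a.val) S)) D.nil).hd

theorem dec_cod_aux {z₀ z₁ : Fin s} (h0 : z₀.val = 0) (h1 : z₁.val = 1) (d : D)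
    (x : List (Fin s)) :
    (cod z₀ z₁ d ++ x).foldr (fun a S => dstep (D.cons (unary a.val) S)) D.nil =
      D.cons d (x.foldr (fun a S => dstep (D.cons (unary a.val) S)) D.nil) := by
  induction d generalizing x with
  | nil => simp [cod, dstep, h0, D.unary, D.hd, D.tl, D.cond]
  | cons a b iha ihb =>
    simp only [cod, List.cons_append, List.foldr_cons, List.append_assoc]
    rw [iha, ihb]
    simp [dstep, h1, D.unary, D.hd, D.tl, D.cond]

theorem dec_cod {z₀ z₁ : Fin s} (h0 : z₀.val = 0) (h1 : z₁.val = 1) (d : D) :
    dec (cod z₀ z₁ d) = d := by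
  have := dec_cod_aux h0 h1 d []
  rw [List.append_nil] at this
  unfold dec
  rw [this]
  rfl

theorem FP.dstep : FP dstep := by
  unfold PH.dstep
  refine FP.cond FP.hd (FP.cons FP.nil FP.tl) (FP.cons (FP.cons FP.htl
    (FP.comp (f := fun z => z.tl.hd) FP.htl FP.tl)) (FP.comp (f := fun z => z.tl.tl) FP.ttl FP.tl))

theorem size_dstep (a S : D) : (dstep (D.cons a S)).size ≤ S.size + 2 := by
  show (cond a (D.cons D.nil S) (D.cons (D.cons S.hd S.tl.hd) S.tl.tl)).size ≤ S.size + 2
  cases a with
  | nil => simp only [D.cond, D.size]; omega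
  | cons a b =>
    simp only [D.cond, D.size]
    have h1 := size_hd_tl S
    have h2 := size_hd_tl S.tl
    omega

theorem foldl_size {g : D → D} {c : ℕ} (h : ∀ a S, (g (D.cons a S)).size ≤ S.size + c)
    (l : List D) (S : D) :
    (l.foldl (fun acc a => g (D.cons a acc)) S).size ≤ S.size + c * l.length := by
  induction l generalizing S with
  | nil => simp
  | cons a l ih =>
    rw [List.foldl_cons, List.length_cons, Nat.mul_succ]
    have := ih (g (D.cons a S))
    have := h a S
    omega

/-- Decoding is polynomial time. -/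
theorem exists_fdec : ∃ F : D → D, FP F ∧ ∀ (s : ℕ) (x : List (Fin s)), F (enc x) = dec x := by
  have h1 : FP (fun x => (toL (PH.rev x)).foldl (fun acc a => dstep (D.cons a acc)) D.nil) := by
    refine FP.foldl FP.dstep FP.nil (FP.rev FP.id) (fun x => 0 + 2 * x.size)
      ((Poly.const 0).add ((Poly.const 2).mul Poly.id)) ?_
    intro x k
    refine (foldl_size size_dstep _ _).trans ?_
    simp only [D.size]
    have h2 : ((toL (PH.rev x)).take k).length ≤ x.size := by
      refine (List.length_take_le' _ _).trans ?_
      unfold PH.rev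
      rw [toL_ofL, List.length_reverse, length_toL]
      exact len_le_size x
    omega
  refine ⟨_, FP.comp FP.hd h1, fun s x => ?_⟩
  unfold dec PH.rev
  rw [toL_ofL, enc_eq, toL_ofL, ← List.foldr_reverse, List.reverse_reverse, List.foldr_map]

/-- One step of the traversal: the state is `cons stack output`. -/
def tstep (z : D) : D :=
  cond z.hd.hd (D.cons z.hd.tl (D.cons D.nil z.tl))
    (D.cons (D.cons z.hd.hd.hd (D.cons z.hd.hd.tl z.hd.tl)) (D.cons (unary 1) z.tl))

theorem FP.tstep : FP tstep := by
  unfold PH.tstep
  have hh : FP (fun z => z.hd.hd) := FP.comp FP.hd FP.hd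
  have ht : FP (fun z => z.hd.tl) := FP.comp FP.tl FP.hd
  exact FP.cond hh (FP.cons ht (FP.cons FP.nil FP.tl))
    (FP.cons (FP.cons (FP.comp FP.hd hh) (FP.cons (FP.comp FP.tl hh) ht))
      (FP.cons (FP.unary 1) FP.tl))

theorem size_tstep (z : D) : (tstep z).size ≤ z.size + 2 := by
  unfold tstep
  cases z with
  | nil => simp [D.hd, D.tl, D.cond, D.size]
  | cons S out =>
    simp only [D.hd, D.tl]
    cases S with
    | nil => simp only [D.hd, D.tl, D.cond, D.size]; omega
    | cons t S =>
      simp only [D.hd, D.tl]
      cases t with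
      | nil => simp only [D.cond, D.size]; omega
      | cons a b => simp only [D.cond, D.hd, D.tl, D.size, size_unary]; omega

/-- The letters of the code, in unary. -/
def codL : D → List D
  | D.nil => [D.nil]
  | D.cons a b => unary 1 :: (codL a ++ codL b)

theorem map_cod {z₀ z₁ : Fin s} (h0 : z₀.val = 0) (h1 : z₁.val = 1) (d : D) :
    (cod z₀ z₁ d).map (fun a => unary a.val) = codL d := by
  induction d with
  | nil => simp [cod, codL, h0, D.unary]
  | cons a b iha ihb => simp [cod, codL, h1, iha, ihb]

theorem tstep_iter (d S : D) (l : List D) :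
    tstep^[2 * d.size + 1] (D.cons (D.cons d S) (ofL l)) =
      D.cons S (ofL ((codL d).reverse ++ l)) := by
  induction d generalizing S l with
  | nil =>
    simp [tstep, codL, D.hd, D.tl, D.cond, D.size, ofL]
  | cons a b iha ihb =>
    have e : 2 * (D.cons a b).size + 1 = (2 * b.size + 1) + ((2 * a.size + 1) + 1) := by
      simp only [D.size]; omega
    rw [e, Function.iterate_add_apply tstep (2 * b.size + 1),
      Function.iterate_succ_apply tstep (2 * a.size + 1)]
    have h1 : tstep (D.cons (D.cons (D.cons a b) S) (ofL l)) =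
        D.cons (D.cons a (D.cons b S)) (ofL (unary 1 :: l)) := rfl
    rw [h1, iha, ihb]
    simp [codL]

/-- Coding is polynomial time. -/
theorem exists_fcod : ∃ H : D → D, FP H ∧ ∀ (s : ℕ) (z₀ z₁ : Fin s), z₀.val = 0 → z₁.val = 1 →
    ∀ d, H d = enc (cod z₀ z₁ d) := by
  have hN : FPN (fun x => 2 * x.size + 1) :=
    ((FPN.const 2).mul (FPN.size FP.id)).add (FPN.const 1)
  have h1 := FP.iter' FP.tstep (g := fun x => D.cons (D.cons x D.nil) D.nil)
    (FP.cons (FP.cons FP.id FP.nil) FP.nil) hN
    (fun x => (x.size + 2) + 2 * (2 * x.size + 1))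
    ((Poly.id.add (Poly.const 2)).add ((Poly.const 2).mul hN.poly)) (by
      intro x k hk
      rw [len_unary] at hk
      have hk' : k ≤ 2 * x.size + 1 := hk
      refine (size_iter_le size_tstep k _).trans ?_
      simp only [D.size]
      omega)
  refine ⟨_, FP.rev (FP.comp FP.tl h1), fun s z₀ z₁ h0 h1 d => ?_⟩
  rw [len_unary]
  have h2 := tstep_iter d D.nil []
  simp only [ofL] at h2
  rw [h2, enc_eq, map_cod h0 h1]
  simp [PH.rev, D.tl, toL_ofL]

theorem codL_length (d : D) : (codL d).length = 2 * d.size + 1 := by
  induction d with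
  | nil => simp [codL, D.size]
  | cons a b iha ihb =>
    simp only [codL, List.length_cons, List.length_append, iha, ihb, D.size]
    omega

end

end Pool.Agent.Lib.EC4075.PH
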