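import Mathlib

/-! # Polynomial time, NP and the polynomial time hierarchy

Polynomial time is defined by a function algebra in the style of Cobham, on finite binary trees
as data. Languages over an alphabet with `s` letters are sets of lists over `Fin s`. -/

namespace Pool.Agent.Lib.EC4075.PH

/-- Data: finite binary trees. A tree is also read as a list of trees (its right spine), and
`cons a b` is the pair of `a` and `b`. -/
inductive D : Type
  | nil : D
  | cons : D → D → D

namespace D

/-- The size of a tree: the number of its inner nodes. -/
def size : D → ℕ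
  | nil => 0
  | cons a b => a.size + b.size + 1

/-- The length of the list. -/
def len : D → ℕ
  | nil => 0
  | cons _ b => b.len + 1

/-- First component. -/
def hd : D → D
  | nil => nil
  | cons a _ => a

/-- Second component. -/
def tl : D → D
  | nil => nil
  | cons _ b => b

/-- The number `n` in unary. -/
def unary : ℕ → D
  | 0 => nil
  | n + 1 => cons nil (unary n)

/-- Case distinction: `cond a b c` is `b` if `a` is `nil`, and `c` otherwise. -/
def cond : D → D → D → D
  | nil, b, _ => b
  | cons _ _, _, c => c

end D

/-- The polynomial time computable functions on trees: the smallest class that contains the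
identity, the constant `nil`, the components, the function giving the size in unary, and is
closed under pairing, composition, case distinction and iteration `x ↦ f^[len (h x)] (g x)`
whenever the intermediate values have size bounded by a polynomial in the size of `x`. -/
inductive FP : (D → D) → Prop
  | id : FP (fun x => x)
  | nil : FP (fun _ => D.nil)
  | hd : FP (fun x => x.hd)
  | tl : FP (fun x => x.tl)
  | size : FP (fun x => D.unary x.size)
  | cons {f g : D → D} : FP f → FP g → FP (fun x => D.cons (f x) (g x))
  | comp {f g : D → D} : FP f → FP g → FP (fun x => f (g x))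
  | cond {f g h : D → D} : FP f → FP g → FP h → FP (fun x => D.cond (f x) (g x) (h x))
  | iter {f g h : D → D} : FP f → FP g → FP h →
      (∃ c : ℕ, ∀ x k, k ≤ (h x).len → (f^[k] (g x)).size ≤ c * (x.size + 1) ^ c) →
      FP (fun x => f^[(h x).len] (g x))

/-- The levels `Σ_i` of the polynomial time hierarchy, as classes of sets of trees. `Σ_0 = P`, and
`A` is in `Σ_(i+1)` if there is `B` in `Σ_i` such that `x ∈ A` iff there is `w`, of size
polynomial in that of `x`, with `(x, w) ∉ B`. -/
def Sig : ℕ → Set (Set D)
  | 0 => {A | ∃ f : D → D, FP f ∧ ∀ x, x ∈ A ↔ f x ≠ D.nil}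
  | i + 1 => {A | ∃ B ∈ Sig i, ∃ c : ℕ, ∀ x, x ∈ A ↔
      ∃ w : D, w.size ≤ c * (x.size + 1) ^ c ∧ D.cons x w ∉ B}

/-- A word over the alphabet `Fin s` as a tree: the list of its letters, in unary. -/
def enc {s : ℕ} : List (Fin s) → D
  | [] => D.nil
  | a :: l => D.cons (D.unary a.val) (enc l)

/-- The level `Σ_i` of the polynomial time hierarchy for languages over `Fin s`. -/
def SigW (s i : ℕ) : Set (Set (List (Fin s))) :=
  {A | ∃ B ∈ Sig i, ∀ x, x ∈ A ↔ enc x ∈ B}

/-- NP, for languages over `Fin s`. -/
def NP (s : ℕ) : Set (Set (List (Fin s))) := SigW s 1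

/-- The polynomial time hierarchy does not collapse. -/
def PHInfinite (s : ℕ) : Prop := ∀ i, SigW s i ≠ SigW s (i + 1)

end Pool.Agent.Lib.EC4075.PH
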