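import Pool.Agent.Lib.MP_4075bc_lc.PH.StochD

namespace Pool.Agent.Lib.EC4075.PH

open Finset

/-- Rounding with operations that may depend on the point of `G`. -/
theorem emb_of_ops {G G' : Type} [Lattice G] [BoundedOrder G] [Finite G] [Lattice G']
    [Fintype G'] {k : ℕ} (f : G → Fin k) (f' : G' → Fin k)
    (t : ∀ n : ℕ, G → (Fin n → G') → G')
    (hmono : ∀ n, 0 < n → ∀ x x' y y', x ≤ x' → y ≤ y' → t n x y ≤ t n x' y')
    (hsymm : ∀ n, 0 < n → ∀ x y (σ : Equiv.Perm (Fin n)), t n x (fun i => y (σ i)) = t n x y)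
    (hlab : ∀ n, 0 < n → ∀ x y, (∀ i, f' (y i) = f x) → f' (t n x y) = f x)
    (π : G → G' → ℝ) (hπ : StochSel (fun x y => f' y = f x) π)
    (hm : ∀ x x', x ≤ x' → ∀ D : Set G', IsLowerSet D → mass (π x') D ≤ mass (π x) D) :
    Emb f f' := by
  classical
  obtain ⟨n, κ, hn, hsum, hA, hD⟩ := counts _ π hπ hm
  choose y hy1 hy2 using fun x => exists_tuple n (κ x) (hsum x)
  refine ⟨fun x => t n x (y x), fun x x' hxx => ?_,
    fun x => hlab n hn x (y x) (fun i => hA x _ (hy1 x i))⟩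
  obtain ⟨σ, hσ⟩ := matching n (y x) (y x') (fun D hD' => by
    have h1 := hD x x' hxx D hD'
    rw [← hy2 x D, ← hy2 x' D] at h1
    exact h1)
  calc t n x (y x) = t n x (fun i => y x (σ i)) := (hsymm n hn x (y x) σ).symm
    _ ≤ t n x' (y x') := hmono n hn _ _ _ _ hxx hσ

end Pool.Agent.Lib.EC4075.PH
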