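import Pool.Agent.Lib.MP_4075bc_lc.PH.Code
import Pool.Agent.Lib.MP_4075bc_lc.Core

/-! # The class NP on sequences of trees has the closure properties used -/

namespace Pool.Agent.Lib.EC4075.PH

open D

instance : Inhabited D := ⟨D.nil⟩

/-- The element number `j` of a sequence. -/
def wdD (u : List D) (j : ℕ) : D := u.getD j D.nil

/-- The closure properties. -/
structure NPLikeD (K : Set (Set (List D))) : Prop where
  empty_mem : ∅ ∈ K
  univ_mem : Set.univ ∈ K
  union : ∀ A ∈ K, ∀ B ∈ K, A ∪ B ∈ K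
  inter : ∀ A ∈ K, ∀ B ∈ K, A ∩ B ∈ K
  len : ∀ j l : ℕ, {u | (wdD u j).len = l} ∈ K
  select : ∀ A ∈ K, ∀ J : List ℕ, {u | J.map (wdD u) ∈ A} ∈ K
  threshold : ∀ A ∈ K, ∀ p : ℕ, 0 < p →
    {u | ∃ S : Finset ℕ, S.card = (wdD u 1).len ∧ ∀ s ∈ S, 2 + p * (s + 1) ≤ u.length ∧
      (wdD u 0 :: (List.range p).map (fun j => wdD u (2 + p * s + j))) ∈ A} ∈ K

/-- `K/poly`. -/
def InPolyD (K : Set (Set (List D))) (L : Set D) : Prop :=
  ∃ A ∈ K, ∃ (a : ℕ → List D) (c : ℕ), (∀ n, (ofL (a n)).size ≤ c * (n + 1) ^ c) ∧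
    ∀ y : D, y ∈ L ↔ (y :: a y.size) ∈ A

/-- NP on sequences of trees. -/
def K1 : Set (Set (List D)) := {A | ∃ B ∈ Sig 1, ∀ u, u ∈ A ↔ ofL u ∈ B}

theorem FP.nth {n : D → ℕ} (hn : FPN n) {f : D → D} (hf : FP f) :
    FP (fun x => (D.tl^[n x] (f x)).hd) := FP.comp FP.hd (FP.iterTl hf hn)

theorem FP.listMap (J : List ℕ) (G : ℕ → D → D) (hG : ∀ j, FP (G j)) :
    FP (fun x => ofL (J.map (fun j => G j x))) := by
  induction J with
  | nil => exact FP.nil
  | cons j J ih => exact FP.cons (hG j) ih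

theorem nth_ofL (j : ℕ) (u : List D) : (D.tl^[j] (ofL u)).hd = wdD u j := by
  rw [nth_toL, toL_ofL]; rfl

theorem len_ofL (u : List D) : (ofL u).len = u.length := by
  rw [← length_toL, toL_ofL]

theorem size_nth (j : ℕ) (x : D) : (D.tl^[j] x).hd.size ≤ x.size :=
  (size_hd _).trans (size_iter_tl j x)

theorem size_ofL_le (l : List D) (M : ℕ) (h : ∀ a ∈ l, a.size ≤ M) :
    (ofL l).size ≤ l.length * (M + 1) := by
  induction l with
  | nil => simp [ofL, D.size]
  | cons a l ih =>
    have h1 := h a (by simp)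
    have h2 := ih (fun b hb => h b (by simp [hb]))
    simp only [ofL, D.size, List.length_cons, Nat.succ_mul]
    omega

/-- The threshold set, on trees. -/
def thrD (p : ℕ) (B : Set D) : Set D :=
  {z | ∃ S : Finset ℕ, S.card = z.tl.hd.len ∧ ∀ s ∈ S, 2 + p * (s + 1) ≤ z.len ∧
    D.cons z.hd (ofL ((List.range p).map (fun j => (D.tl^[2 + p * s + j] z).hd))) ∈ B}

theorem thrD_mem (p : ℕ) (hp : 0 < p) {B : Set D} (hB : B ∈ Sig 1) : thrD p B ∈ Sig 1 := by
  classical
  obtain ⟨C, hC, q, hq, rfl⟩ := sig_el hB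
  obtain ⟨c, hc⟩ := hq.poly
  -- `Y = cons (cons z w) (unary i)`
  have hz : FP (fun Y => Y.hd.hd) := FP.comp FP.hd FP.hd
  have hw : FP (fun Y => Y.hd.tl) := FP.comp FP.tl FP.hd
  have hi : FPN (fun Y => Y.tl.len) := FPN.len FP.tl
  have hwi : FP (fun Y => (D.tl^[Y.tl.len] Y.hd.tl).hd) := FP.nth hi hw
  have hV : FP (fun Y => D.cons Y.hd.hd.hd
      (ofL ((List.range p).map (fun j => (D.tl^[2 + p * Y.tl.len + j] Y.hd.hd).hd)))) := by
    refine FP.cons (FP.comp FP.hd hz) (FP.listMap _ _ (fun j => ?_))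
    exact FP.nth (((FPN.const 2).add ((FPN.const p).mul hi)).add (FPN.const j)) hz
  have hchk : FP (fun Y => D.cons (D.cons Y.hd.hd.hd
      (ofL ((List.range p).map (fun j => (D.tl^[2 + p * Y.tl.len + j] Y.hd.hd).hd))))
      (D.tl^[Y.tl.len] Y.hd.tl).hd.tl) := FP.cons hV (FP.comp FP.tl hwi)
  set W : D → D := fun Y => (D.tl^[Y.tl.len] Y.hd.tl).hd with hW
  set V : D → D := fun Y => D.cons Y.hd.hd.hd
      (ofL ((List.range p).map (fun j => (D.tl^[2 + p * Y.tl.len + j] Y.hd.hd).hd))) with hVdef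
  have hA1 : {Y : D | W Y = D.nil} ∈ Sig 0 := P.eq_nil hwi
  have hA2 : {Y : D | 2 + p * (Y.tl.len + 1) ≤ Y.hd.hd.len} ∈ Sig 0 :=
    P.le ((FPN.const 2).add ((FPN.const p).mul (hi.add (FPN.const 1)))) (FPN.len hz)
  have hA3 : {Y : D | (W Y).tl.size ≤ q (V Y)} ∈ Sig 0 :=
    P.le (FPN.size (FP.comp FP.tl hwi)) (hq.comp hV)
  have hA4 : {Y : D | D.cons (V Y) (W Y).tl ∈ Cᶜ} ∈ Sig 0 := P.pre (P.compl hC) hchk
  have hA := P.union hA1 (P.inter hA2 (P.inter hA3 hA4))
  set A' : Set D := {Y : D | W Y = D.nil} ∪ ({Y : D | 2 + p * (Y.tl.len + 1) ≤ Y.hd.hd.len} ∩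
    ({Y : D | (W Y).tl.size ≤ q (V Y)} ∩ {Y : D | D.cons (V Y) (W Y).tl ∈ Cᶜ})) with hA'
  have hball := P.ball hA (FPN.len FP.tl)
  have hcount : FPN (fun Z => ∑ i ∈ Finset.range Z.tl.len,
      if D.cons Z (unary i) ∈ {Y : D | W Y = D.nil}ᶜ then 1 else 0) :=
    FPN.bsum (FPN.ind (P.compl hA1)) (FPN.len FP.tl)
  have hge := P.le (FPN.len (FP.comp FP.htl FP.hd)) hcount
  have hR := P.inter hge hball
  -- the bound
  have hb : FPN (fun z => z.len * ((1 + c * ((z.size + p * (z.size + 1) + 1) + 1) ^ c) + 1)) := by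
    refine (FPN.len FP.id).mul (((FPN.const 1).add (FPN.bd c ?_)).add (FPN.const 1))
    exact ((FPN.size FP.id).add ((FPN.const p).mul ((FPN.size FP.id).add (FPN.const 1)))).add
      (FPN.const 1)
  have hfin := sig_ex cl_zero (P.compl hR) hb
  convert hfin using 1
  ext z
  have hWv : ∀ (w : D) (i : ℕ), W (D.cons (D.cons z w) (unary i)) = (D.tl^[i] w).hd := by
    intro w i
    simp only [hW, D.hd, D.tl, len_unary]
  have hVv : ∀ (w : D) (i : ℕ), V (D.cons (D.cons z w) (unary i)) = D.cons z.hd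
      (ofL ((List.range p).map (fun j => (D.tl^[2 + p * i + j] z).hd))) := by
    intro w i
    simp only [hVdef, D.hd, D.tl, len_unary]
  have hVsize : ∀ i, (D.cons z.hd (ofL ((List.range p).map
      (fun j => (D.tl^[2 + p * i + j] z).hd)))).size ≤ z.size + p * (z.size + 1) + 1 := by
    intro i
    simp only [D.size]
    have h1 := size_hd z
    have h2 := size_ofL_le ((List.range p).map (fun j => (D.tl^[2 + p * i + j] z).hd)) z.size (by
      intro a ha
      obtain ⟨j, _, rfl⟩ := List.mem_map.1 ha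
      exact size_nth _ _)
    rw [List.length_map, List.length_range] at h2
    omega
  constructor
  · rintro ⟨S, hS, hS2⟩
    choose! x hx using (fun s (hs : s ∈ S) => (hS2 s hs).2)
    let w : D := ofL ((List.range z.len).map (fun i => if i ∈ S then D.cons D.nil (x i) else D.nil))
    have hlenw : w.len = z.len := by
      simp only [w]
      rw [len_ofL, List.length_map, List.length_range]
    have hwi : ∀ i < z.len, (D.tl^[i] w).hd = if i ∈ S then D.cons D.nil (x i) else D.nil := by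
      intro i hi
      simp only [w]
      rw [nth_ofL]
      unfold wdD
      rw [List.getD_eq_getElem?_getD, List.getElem?_map, List.getElem?_range hi]
      rfl
    have hSlt : ∀ s ∈ S, s < z.len := by
      intro s hs
      have := (hS2 s hs).1
      have h0 : s + 1 ≤ p * (s + 1) := Nat.le_mul_of_pos_left _ hp
      omega
    refine ⟨w, ?_, ?_⟩
    · have h1 := size_ofL_le ((List.range z.len).map
        (fun i => if i ∈ S then D.cons D.nil (x i) else D.nil))
        (1 + c * ((z.size + p * (z.size + 1) + 1) + 1) ^ c) (by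
        intro a ha
        obtain ⟨i, _, rfl⟩ := List.mem_map.1 ha
        split_ifs with hiS
        · have h2 := (hx i hiS).1
          have h3 := (h2.trans (hc _)).trans (Nat.mul_le_mul_left c
            (Nat.pow_le_pow_left (Nat.add_le_add_right (hVsize i) 1) c))
          simp only [D.size]
          omega
        · simp [D.size])
      rw [List.length_map, List.length_range] at h1
      exact h1
    · intro hcon
      apply hcon
      constructor
      · show z.tl.hd.len ≤ ∑ i ∈ Finset.range w.len,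
          if D.cons (D.cons z w) (unary i) ∈ {Y : D | W Y = D.nil}ᶜ then 1 else 0
        rw [← hS, hlenw, Finset.sum_boole]
        apply Finset.card_le_card
        intro s hs
        rw [Finset.mem_filter, Finset.mem_range]
        refine ⟨hSlt s hs, ?_⟩
        show ¬ (W (D.cons (D.cons z w) (unary s)) = D.nil)
        rw [hWv, hwi s (hSlt s hs), if_pos hs]
        simp
      · intro i hi
        have hi' : i < z.len := by
          have : i < w.len := hi
          rwa [hlenw] at this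
        by_cases hiS : i ∈ S
        · right
          refine ⟨?_, ?_, ?_⟩
          · show 2 + p * ((D.cons (D.cons z w) (unary i)).tl.len + 1) ≤ z.len
            simp only [D.tl, len_unary]
            exact (hS2 i hiS).1
          · show (W (D.cons (D.cons z w) (unary i))).tl.size ≤ q (V (D.cons (D.cons z w) (unary i)))
            rw [hWv, hVv, hwi i hi', if_pos hiS]
            exact (hx i hiS).1
          · show D.cons (V (D.cons (D.cons z w) (unary i))) (W (D.cons (D.cons z w) (unary i))).tl ∉ C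
            rw [hWv, hVv, hwi i hi', if_pos hiS]
            exact (hx i hiS).2
        · left
          show W (D.cons (D.cons z w) (unary i)) = D.nil
          rw [hWv, hwi i hi', if_neg hiS]
  · rintro ⟨w, _, hw⟩
    rw [Set.mem_compl_iff, not_not] at hw
    obtain ⟨h1, h2⟩ := hw
    have h1' : z.tl.hd.len ≤ ∑ i ∈ Finset.range w.len,
          if D.cons (D.cons z w) (unary i) ∈ {Y : D | W Y = D.nil}ᶜ then 1 else 0 := h1
    rw [Finset.sum_boole] at h1'
    obtain ⟨S, hS, hS2⟩ := Finset.exists_subset_card_eq h1'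
    refine ⟨S, hS2, fun s hs => ?_⟩
    have h3 := Finset.mem_filter.1 (hS hs)
    have h4 : ¬ (W (D.cons (D.cons z w) (unary s)) = D.nil) := h3.2
    have h5 : s < w.len := Finset.mem_range.1 h3.1
    rcases h2 s h5 with h6 | ⟨h6, h7, h8⟩
    · exact absurd h6 h4
    · refine ⟨?_, (W (D.cons (D.cons z w) (unary s))).tl, ?_, ?_⟩
      · have h9 : 2 + p * ((D.cons (D.cons z w) (unary s)).tl.len + 1) ≤ z.len := h6
        simp only [D.tl, len_unary] at h9
        exact h9
      · have h9 : (W (D.cons (D.cons z w) (unary s))).tl.size ≤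
          q (V (D.cons (D.cons z w) (unary s))) := h7
        rw [hVv] at h9
        exact h9
      · have h9 : D.cons (V (D.cons (D.cons z w) (unary s)))
          (W (D.cons (D.cons z w) (unary s))).tl ∉ C := h8
        rw [hVv] at h9
        exact h9

/-- Selection on trees. -/
theorem FP.sel (J : List ℕ) : FP (fun z => ofL (J.map (fun j => (D.tl^[j] z).hd))) :=
  FP.listMap J _ (fun j => FP.nth (FPN.const j) FP.id)

theorem npLike_K1 : NPLikeD K1 := by
  have h1 : ∀ A ∈ Sig 0, A ∈ Sig 1 := (cl 1).zero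
  refine ⟨⟨∅, h1 _ P.empty, fun u => by simp⟩, ⟨Set.univ, h1 _ P.univ, fun u => by simp⟩,
    ?_, ?_, ?_, ?_, ?_⟩
  · rintro A ⟨B, hB, hAB⟩ A' ⟨B', hB', hAB'⟩
    exact ⟨B ∪ B', (cl 1).union _ hB _ hB', fun u => by
      rw [Set.mem_union, Set.mem_union, hAB, hAB']⟩
  · rintro A ⟨B, hB, hAB⟩ A' ⟨B', hB', hAB'⟩
    exact ⟨B ∩ B', (cl 1).inter _ hB _ hB', fun u => by
      rw [Set.mem_inter_iff, Set.mem_inter_iff, hAB, hAB']⟩
  · intro j l
    refine ⟨_, h1 _ (P.eq (FPN.len (FP.nth (FPN.const j) FP.id)) (FPN.const l)), fun u => ?_⟩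
    show (wdD u j).len = l ↔ ((D.tl^[j] (ofL u)).hd).len = l
    rw [nth_ofL]
  · rintro A ⟨B, hB, hAB⟩ J
    refine ⟨_, (cl 1).pre _ hB _ (FP.sel J), fun u => ?_⟩
    show J.map (wdD u) ∈ A ↔ ofL (J.map (fun j => (D.tl^[j] (ofL u)).hd)) ∈ B
    rw [hAB]
    have : J.map (fun j => (D.tl^[j] (ofL u)).hd) = J.map (wdD u) := by
      apply List.map_congr_left
      intro j _
      exact nth_ofL j u
    rw [this]
  · rintro A ⟨B, hB, hAB⟩ p hp
    refine ⟨_, thrD_mem p hp hB, fun u => ?_⟩
    have e0 : (ofL u).hd = wdD u 0 := nth_ofL 0 u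
    have e1 : (ofL u).tl.hd = wdD u 1 := nth_ofL 1 u
    unfold thrD
    simp only [Set.mem_ofPred_eq]
    rw [e0, e1, len_ofL]
    constructor
    · rintro ⟨S, hS, hS2⟩
      refine ⟨S, hS, fun s hs => ⟨(hS2 s hs).1, ?_⟩⟩
      have h2 := (hAB _).1 (hS2 s hs).2
      simp only [ofL] at h2
      have h3 : (List.range p).map (fun j => (D.tl^[2 + p * s + j] (ofL u)).hd) =
          (List.range p).map (fun j => wdD u (2 + p * s + j)) := by
        apply List.map_congr_left
        intro j _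
        exact nth_ofL _ u
      rw [h3]; exact h2
    · rintro ⟨S, hS, hS2⟩
      refine ⟨S, hS, fun s hs => ⟨(hS2 s hs).1, ?_⟩⟩
      rw [hAB]
      have h2 := (hS2 s hs).2
      simp only [ofL]
      have h3 : (List.range p).map (fun j => (D.tl^[2 + p * s + j] (ofL u)).hd) =
          (List.range p).map (fun j => wdD u (2 + p * s + j)) := by
        apply List.map_congr_left
        intro j _
        exact nth_ofL _ u
      rw [h3] at h2; exact h2

end Pool.Agent.Lib.EC4075.PH
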