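import Pool.Agent.Lib.MP_4075bc_lc.PH.Tool

/-! # Closure properties of the levels of the hierarchy -/

namespace Pool.Agent.Lib.EC4075.PH

open D

/-- Closure properties of a level. -/
structure Cl (i : ℕ) : Prop where
  zero : ∀ A ∈ Sig 0, A ∈ Sig i
  union : ∀ A ∈ Sig i, ∀ B ∈ Sig i, A ∪ B ∈ Sig i
  inter : ∀ A ∈ Sig i, ∀ B ∈ Sig i, A ∩ B ∈ Sig i
  pre : ∀ A ∈ Sig i, ∀ f : D → D, FP f → {x | f x ∈ A} ∈ Sig i

theorem sig_ex {i : ℕ} (h : Cl i) {B : Set D} (hB : B ∈ Sig i) {p : D → ℕ} (hp : FPN p) :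
    {x | ∃ w : D, w.size ≤ p x ∧ D.cons x w ∉ B} ∈ Sig (i + 1) := by
  obtain ⟨c, hc⟩ := hp.poly
  refine ⟨{z | z.tl.size ≤ p z.hd}ᶜ ∪ B, h.union _ (h.zero _ (P.compl
    (P.le (FPN.size FP.tl) (hp.comp FP.hd)))) _ hB, c, fun x => ?_⟩
  constructor
  · rintro ⟨w, h1, h2⟩
    refine ⟨w, h1.trans (hc x), ?_⟩
    rintro (h3 | h3)
    · exact h3 h1
    · exact h2 h3
  · rintro ⟨w, _, h2⟩
    rw [Set.mem_union, not_or] at h2
    exact ⟨w, by_contra (fun h3 => h2.1 h3), h2.2⟩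

theorem sig_el {i : ℕ} {A : Set D} (hA : A ∈ Sig (i + 1)) :
    ∃ B ∈ Sig i, ∃ p : D → ℕ, FPN p ∧ A = {x | ∃ w : D, w.size ≤ p x ∧ D.cons x w ∉ B} := by
  obtain ⟨B, hB, c, hc⟩ := hA
  exact ⟨B, hB, _, FPN.bd c (FPN.size FP.id), Set.ext hc⟩

theorem cl_zero : Cl 0 :=
  ⟨fun _ h => h, fun _ hA _ hB => P.union hA hB, fun _ hA _ hB => P.inter hA hB,
    fun _ hA _ hf => P.pre hA hf⟩

theorem FP.htl : FP (fun z => z.tl.hd) := FP.comp FP.hd FP.tl
theorem FP.ttl : FP (fun z => z.tl.tl) := FP.comp FP.tl FP.tl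

theorem cl_succ {i : ℕ} (h : Cl i) : Cl (i + 1) := by
  refine ⟨?_, ?_, ?_, ?_⟩
  · intro A hA
    have hB : {z : D | z.hd ∈ Aᶜ} ∈ Sig i := h.zero _ (P.pre (P.compl hA) FP.hd)
    have := sig_ex h hB (FPN.const 0)
    have e : {x | ∃ w : D, w.size ≤ 0 ∧ D.cons x w ∉ {z : D | z.hd ∈ Aᶜ}} = A := by
      ext x
      constructor
      · rintro ⟨w, _, h2⟩
        by_contra h3
        exact h2 h3
      · intro hx
        exact ⟨D.nil, le_rfl, fun h3 => h3 hx⟩
    rwa [e] at this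
  · intro A₁ hA₁ A₂ hA₂
    obtain ⟨B₁, hB₁, p₁, hp₁, rfl⟩ := sig_el hA₁
    obtain ⟨B₂, hB₂, p₂, hp₂, rfl⟩ := sig_el hA₂
    -- `z = cons x (cons t w)`
    have hcw : FP (fun z => D.cons z.hd z.tl.tl) := FP.cons FP.hd FP.ttl
    have h1 := h.union _ (h.zero _ (P.ne_nil FP.htl)) _ (h.union _
      (h.zero _ (P.compl (P.le (FPN.size FP.ttl) (hp₁.comp FP.hd)))) _ (h.pre _ hB₁ _ hcw))
    have h2 := h.union _ (h.zero _ (P.eq_nil FP.htl)) _ (h.union _
      (h.zero _ (P.compl (P.le (FPN.size FP.ttl) (hp₂.comp FP.hd)))) _ (h.pre _ hB₂ _ hcw))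
    have h3 := sig_ex h (h.inter _ h1 _ h2) ((hp₁.add hp₂).add (FPN.const 2))
    convert h3 using 1
    ext x
    constructor
    · rintro (⟨w, hw, hB⟩ | ⟨w, hw, hB⟩)
      · refine ⟨D.cons D.nil w, ?_, ?_⟩
        · simp only [D.size]; omega
        · rintro ⟨h4, _⟩
          rcases h4 with h4 | h4 | h4
          · exact h4 rfl
          · exact h4 hw
          · exact hB h4
      · refine ⟨D.cons (D.cons D.nil D.nil) w, ?_, ?_⟩
        · simp only [D.size]; omega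
        · rintro ⟨_, h4⟩
          rcases h4 with h4 | h4 | h4
          · exact absurd h4 (by simp [D.hd, D.tl])
          · exact h4 hw
          · exact hB h4
    · rintro ⟨w, _, hB⟩
      by_contra hcon
      rw [Set.mem_union, not_or] at hcon
      apply hB
      constructor
      · by_cases ht : w.hd = D.nil
        · right
          by_cases h5 : w.tl.size ≤ p₁ x
          · right
            by_contra h6
            exact hcon.1 ⟨w.tl, h5, h6⟩
          · left; exact h5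
        · left; exact ht
      · by_cases ht : w.hd = D.nil
        · left; exact ht
        · right
          by_cases h5 : w.tl.size ≤ p₂ x
          · right
            by_contra h6
            exact hcon.2 ⟨w.tl, h5, h6⟩
          · left; exact h5
  · intro A₁ hA₁ A₂ hA₂
    obtain ⟨B₁, hB₁, p₁, hp₁, rfl⟩ := sig_el hA₁
    obtain ⟨B₂, hB₂, p₂, hp₂, rfl⟩ := sig_el hA₂
    -- `z = cons x (cons w₁ w₂)`
    have hc1 : FP (fun z => D.cons z.hd z.tl.hd) := FP.cons FP.hd FP.htl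
    have hc2 : FP (fun z => D.cons z.hd z.tl.tl) := FP.cons FP.hd FP.ttl
    have h1 := h.union _
      (h.zero _ (P.compl (P.le (FPN.size FP.htl) (hp₁.comp FP.hd)))) _ (h.pre _ hB₁ _ hc1)
    have h2 := h.union _
      (h.zero _ (P.compl (P.le (FPN.size FP.ttl) (hp₂.comp FP.hd)))) _ (h.pre _ hB₂ _ hc2)
    have h3 := sig_ex h (h.union _ h1 _ h2) ((hp₁.add hp₂).add (FPN.const 1))
    convert h3 using 1
    ext x
    constructor
    · rintro ⟨⟨w₁, hw₁, hb₁⟩, ⟨w₂, hw₂, hb₂⟩⟩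
      refine ⟨D.cons w₁ w₂, ?_, ?_⟩
      · simp only [D.size]; omega
      · rintro ((h4 | h4) | (h4 | h4))
        · exact h4 hw₁
        · exact hb₁ h4
        · exact h4 hw₂
        · exact hb₂ h4
    · rintro ⟨w, _, hB⟩
      rw [Set.mem_union, not_or, Set.mem_union, not_or, Set.mem_union, not_or] at hB
      exact ⟨⟨w.hd, by_contra (fun h4 => hB.1.1 h4), hB.1.2⟩,
        ⟨w.tl, by_contra (fun h4 => hB.2.1 h4), hB.2.2⟩⟩
  · intro A hA f hf
    obtain ⟨B, hB, p, hp, rfl⟩ := sig_el hA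
    have h1 := h.pre _ hB (fun z => D.cons (f z.hd) z.tl) (FP.cons (FP.comp hf FP.hd) FP.tl)
    exact sig_ex h h1 (hp.comp hf)

theorem cl (i : ℕ) : Cl i := by
  induction i with
  | zero => exact cl_zero
  | succ i ih => exact cl_succ ih

theorem sig_compl {i : ℕ} {A : Set D} (hA : A ∈ Sig i) : Aᶜ ∈ Sig (i + 1) := by
  have := sig_ex (cl i) ((cl i).pre _ hA _ FP.hd) (FPN.const 0)
  have e : {x | ∃ w : D, w.size ≤ 0 ∧ D.cons x w ∉ {z : D | z.hd ∈ A}} = Aᶜ := by
    ext x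
    constructor
    · rintro ⟨w, _, h2⟩ h3
      exact h2 h3
    · intro hx
      exact ⟨D.nil, le_rfl, fun h3 => hx h3⟩
  rwa [e] at this

theorem sig_mono_succ (i : ℕ) : Sig i ⊆ Sig (i + 1) := by
  induction i with
  | zero => exact fun A hA => (cl 1).zero A hA
  | succ i ih =>
    intro A hA
    obtain ⟨B, hB, p, hp, rfl⟩ := sig_el hA
    exact sig_ex (cl (i + 1)) (ih hB) hp

/-- Closure under existential quantification. -/
theorem sig_ex2 {i : ℕ} {A : Set D} (hA : A ∈ Sig (i + 1)) {p : D → ℕ} (hp : FPN p) :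
    {x | ∃ w : D, w.size ≤ p x ∧ D.cons x w ∈ A} ∈ Sig (i + 1) := by
  obtain ⟨B, hB, q, hq, rfl⟩ := sig_el hA
  obtain ⟨c, hc⟩ := hq.poly
  -- `z = cons x (cons w v)`
  have h := cl i
  have f1 : FP (fun z => D.cons z.hd z.tl.hd) := FP.cons FP.hd FP.htl
  have f2 : FP (fun z => D.cons (D.cons z.hd z.tl.hd) z.tl.tl) := FP.cons f1 FP.ttl
  have h1 := h.union _
      (h.zero _ (P.compl (P.le (FPN.size FP.htl) (hp.comp FP.hd)))) _
      (h.union _ (h.zero _ (P.compl (P.le (FPN.size FP.ttl) (hq.comp f1)))) _ (h.pre _ hB _ f2))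
  have h3 := sig_ex h h1 ((hp.add (FPN.bd c ((FPN.size FP.id).add (hp.add (FPN.const 1))))).add
    (FPN.const 1))
  convert h3 using 1
  ext x
  constructor
  · rintro ⟨w, hw, v, hv, hB⟩
    refine ⟨D.cons w v, ?_, ?_⟩
    · have h4 : v.size ≤ c * ((x.size + (p x + 1)) + 1) ^ c := by
        refine (hv.trans (hc _)).trans ?_
        apply Nat.mul_le_mul_left
        apply Nat.pow_le_pow_left
        simp only [D.size]
        omega
      simp only [D.size]
      omega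
    · rintro (h4 | h4 | h4)
      · exact h4 hw
      · exact h4 hv
      · exact hB h4
  · rintro ⟨w, _, hB⟩
    rw [Set.mem_union, not_or, Set.mem_union, not_or] at hB
    exact ⟨w.hd, by_contra (fun h4 => hB.1 h4), w.tl, by_contra (fun h4 => hB.2.1 h4), hB.2.2⟩

/-- Universal quantification over the complement of a level. -/
theorem sig_all {i : ℕ} {A : Set D} (hA : A ∈ Sig i) {p : D → ℕ} (hp : FPN p) :
    {x | ∀ w : D, w.size ≤ p x → D.cons x w ∈ A}ᶜ ∈ Sig (i + 1) := by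
  have := sig_ex (cl i) hA hp
  convert this using 1
  ext x
  simp

end Pool.Agent.Lib.EC4075.PH
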