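import Pool.Agent.Lib.MP_4075bc_lc.PH.Thr

/-! # Yap's theorem: if coNP is contained in NP/poly, the hierarchy collapses -/

namespace Pool.Agent.Lib.EC4075.PH

open D

/-- Some set in NP has its complement outside `NP/poly`. -/
def CoHardD (K : Set (Set (List D))) : Prop :=
  ∃ L : Set D, {u | wdD u 0 ∈ L} ∈ K ∧ ¬ InPolyD K Lᶜ

theorem advice {L : Set D} (h : InPolyD K1 Lᶜ) : ∃ N ∈ Sig 1, ∃ (α : ℕ → D) (c : ℕ),
    (∀ n, (α n).size ≤ c * (n + 1) ^ c) ∧ ∀ y : D, y ∉ L ↔ D.cons y (α y.size) ∈ N := by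
  obtain ⟨A, ⟨N, hN, hAN⟩, a, c, hc, h⟩ := h
  refine ⟨N, hN, fun n => ofL (a n), c, hc, fun y => ?_⟩
  rw [← Set.mem_compl_iff, h, hAN]
  rfl

theorem size_range_map (α : ℕ → D) (n M : ℕ) (h : ∀ i < n, (α i).size ≤ M) :
    (ofL ((List.range n).map α)).size ≤ n * (M + 1) := by
  have := size_ofL_le ((List.range n).map α) M (by
    intro a ha
    obtain ⟨i, hi, rfl⟩ := List.mem_map.1 ha
    exact h i (List.mem_range.1 hi))
  rwa [List.length_map, List.length_range] at this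

theorem yap_compl (h : ¬ CoHardD K1) {B₃ : Set D} (hB₃ : B₃ ∈ Sig 3) : B₃ᶜ ∈ Sig 3 := by
  obtain ⟨B₂, hB₂, p₁, hp₁, rfl⟩ := sig_el hB₃
  obtain ⟨B₁, hB₁, p₂, hp₂, rfl⟩ := sig_el hB₂
  have hin : InPolyD K1 B₁ᶜ := by
    by_contra hcon
    exact h ⟨B₁, ⟨_, (cl 1).pre _ hB₁ _ FP.hd, fun u => by
      show wdD u 0 ∈ B₁ ↔ (ofL u).hd ∈ B₁
      rw [← nth_ofL 0 u]; rfl⟩, hcon⟩
  obtain ⟨N, hN, α, c, hα, hαN⟩ := advice hin
  obtain ⟨c₂, hc₂⟩ := hp₂.poly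
  -- bound for the size of `v = cons (cons x w₁) w₂`
  let n : D → ℕ := fun x => (x.size + p₁ x + 1) + c₂ * ((x.size + p₁ x + 1) + 1) ^ c₂ + 1
  have hn : FPN n := (((FPN.size FP.id).add hp₁).add (FPN.const 1)).add
    (FPN.bd c₂ (((FPN.size FP.id).add hp₁).add (FPN.const 1))) |>.add (FPN.const 1)
  have hT : FPN (fun x => (n x + 1) * ((c * (n x + 1) ^ c) + 1)) :=
    (hn.add (FPN.const 1)).mul ((FPN.bd c hn).add (FPN.const 1))
  -- soundness of a table: `Y = cons Z v`, `Z = cons x β`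
  have hY : FP (fun Y => D.cons Y.tl (D.tl^[Y.tl.size] Y.hd.tl).hd) :=
    FP.cons FP.tl (FP.nth (FPN.size FP.tl) (FP.comp FP.tl FP.hd))
  have hS1 := (cl 1).inter _ ((cl 1).pre _ hB₁ _ FP.tl) _ ((cl 1).pre _ hN _ hY)
  have hS2 := sig_mono_succ 1 (sig_ex2 hS1 (hn.comp FP.hd))
  -- the main part: `X = cons (cons (cons x β) w₁) w₂`
  have hx : FP (fun X => X.hd.hd.hd) := FP.comp FP.hd (FP.comp FP.hd FP.hd)
  have hβ : FP (fun X => X.hd.hd.tl) := FP.comp FP.tl (FP.comp FP.hd FP.hd)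
  have hv : FP (fun X => D.cons (D.cons X.hd.hd.hd X.hd.tl) X.tl) :=
    FP.cons (FP.cons hx (FP.comp FP.tl FP.hd)) FP.tl
  have hX : FP (fun X => D.cons (D.cons (D.cons X.hd.hd.hd X.hd.tl) X.tl)
      (D.tl^[(D.cons (D.cons X.hd.hd.hd X.hd.tl) X.tl).size] X.hd.hd.tl).hd) :=
    FP.cons hv (FP.nth (FPN.size hv) hβ)
  have hM1 := sig_ex2 ((cl 1).pre _ hN _ hX)
    (hp₂.comp (FP.cons (FP.comp FP.hd FP.hd) FP.tl))
  have hM2 := sig_all hM1 (hp₁.comp FP.hd)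
  have hfin := sig_ex (cl 2) ((cl 2).union _ hS2 _ hM2) hT
  convert hfin using 1
  ext x
  have hnv : ∀ w₁ w₂ : D, w₁.size ≤ p₁ x → w₂.size ≤ p₂ (D.cons x w₁) →
      (D.cons (D.cons x w₁) w₂).size ≤ n x := by
    intro w₁ w₂ h1 h2
    have h3 := h2.trans (hc₂ _)
    have h4 : c₂ * ((D.cons x w₁).size + 1) ^ c₂ ≤ c₂ * ((x.size + p₁ x + 1) + 1) ^ c₂ := by
      apply Nat.mul_le_mul_left
      apply Nat.pow_le_pow_left
      simp only [D.size]
      omega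
    simp only [D.size] at h3 h4 ⊢
    simp only [n]
    omega
  constructor
  · intro hxB
    refine ⟨ofL ((List.range (n x + 1)).map α), ?_, ?_⟩
    · apply size_range_map
      intro i hi
      refine (hα i).trans (Nat.mul_le_mul_left _ (Nat.pow_le_pow_left (by omega) _))
    · have hnth : ∀ v : D, v.size ≤ n x →
          (D.tl^[v.size] (ofL ((List.range (n x + 1)).map α))).hd = α v.size := by
        intro v hv
        rw [nth_ofL]
        unfold wdD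
        rw [List.getD_eq_getElem?_getD, List.getElem?_map, List.getElem?_range (by omega)]
        rfl
      rw [Set.mem_union, not_or]
      constructor
      · rintro ⟨v, hv, hv1, hv2⟩
        have hv' : v.size ≤ n x := hv
        have hv1' : v ∈ B₁ := hv1
        have hv2' : D.cons v (D.tl^[v.size] (ofL ((List.range (n x + 1)).map α))).hd ∈ N := hv2
        rw [hnth v hv', ← hαN] at hv2'
        exact hv2' hv1'
      · rw [Set.mem_compl_iff, not_not]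
        intro w₁ hw₁
        have hw₁' : w₁.size ≤ p₁ x := hw₁
        have h1 : D.cons x w₁ ∈ {x | ∃ w : D, w.size ≤ p₂ x ∧ D.cons x w ∉ B₁} := by
          by_contra h2
          exact hxB ⟨w₁, hw₁', h2⟩
        obtain ⟨w₂, hw₂, hw₂B⟩ := h1
        refine ⟨w₂, hw₂, ?_⟩
        show D.cons (D.cons (D.cons x w₁) w₂) (D.tl^[(D.cons (D.cons x w₁) w₂).size]
          (ofL ((List.range (n x + 1)).map α))).hd ∈ N
        rw [hnth _ (hnv w₁ w₂ hw₁' hw₂), ← hαN]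
        exact hw₂B
  · rintro ⟨β, _, hβ'⟩ ⟨w₁, hw₁, hw₁B⟩
    rw [Set.mem_union, not_or] at hβ'
    obtain ⟨hs, hm⟩ := hβ'
    rw [Set.mem_compl_iff, not_not] at hm
    obtain ⟨w₂, hw₂, hw₂N⟩ := hm w₁ hw₁
    have hw₂' : w₂.size ≤ p₂ (D.cons x w₁) := hw₂
    have hN' : D.cons (D.cons (D.cons x w₁) w₂) (D.tl^[(D.cons (D.cons x w₁) w₂).size] β).hd ∈ N :=
      hw₂N
    apply hw₁B
    refine ⟨w₂, hw₂', fun hB => ?_⟩
    exact hs ⟨D.cons (D.cons x w₁) w₂, hnv w₁ w₂ hw₁ hw₂', hB, hN'⟩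

theorem yap (h : ¬ CoHardD K1) : Sig 3 = Sig 4 := by
  apply Set.Subset.antisymm (sig_mono_succ 3)
  intro A hA
  obtain ⟨B, hB, p, hp, rfl⟩ := sig_el hA
  exact sig_ex2 (yap_compl h hB) hp

theorem cohard_of_ph {s : ℕ} (h : PHInfinite s) : CoHardD K1 := by
  by_contra hcon
  apply h 3
  have := yap hcon
  unfold SigW
  rw [this]

end Pool.Agent.Lib.EC4075.PH
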