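import Pool.Agent.Lib.MP_4075bc_lc.Round
import Pool.Agent.Lib.MP_4075bc_lc.PH.FoolD
import Pool.Agent.Lib.MP_4075bc_lc.PH.Yap

/-! # Stochastic embedding from NP on trees, and transport to words -/

namespace Pool.Agent.Lib.EC4075.PH

open Finset D Filter Topology

/-- The Boolean type of a sequence of words with respect to `L`. -/
noncomputable def typ (L : Set D) (m : ℕ) (u : List D) : Fin m → Fin 2 :=
  open Classical in fun i => if wdD u i.val ∈ L then 0 else 1

theorem typ_kmap {K : Set (Set (List D))} (hK : NPLikeD K) {L : Set D}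
    (hL : {u | wdD u 0 ∈ L} ∈ K) (m : ℕ) : KMap K (typ L m) := by
  classical
  apply KMap.pi hK.univ_mem hK.inter
  intro i a
  have h1 : {u | wdD u i.val ∈ L} ∈ K := by
    have := hK.select _ hL [i.val]
    have h2 : {u | ([i.val].map (wdD u)) ∈ {u | wdD u 0 ∈ L}} = {u | wdD u i.val ∈ L} := by
      ext u; simp [wdD]
    rw [h2] at this
    exact this
  by_cases ha : a = 0
  · have : {u | typ L m u i ≤ a} = {u | wdD u i.val ∈ L} := by
      ext u
      subst ha
      unfold typ
      by_cases h : wdD u i.val ∈ L <;> simp [h]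
    rw [this]; exact h1
  · have : {u | typ L m u i ≤ a} = Set.univ := by
      have ha1 : a = 1 := by omega
      subst ha1
      ext u
      simp only [Set.mem_univ, iff_true, Set.mem_ofPred_eq]
      exact Fin.le_last _
    rw [this]; exact hK.univ_mem

theorem typ_seq {L : Set D} {m n : ℕ} (z : Fin m → (X n)) (i : Fin m) :
    typ L m (seq z) i = 0 ↔ (z i).1 ∈ L := by
  classical
  unfold typ
  have : wdD (seq z) i.val = (z i).1 := wd_seq z i
  rw [this]
  by_cases h : (z i).1 ∈ L <;> simp [h]

open Classical in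
/-- The weights on words of length `n` used for the value `b` of a coordinate. -/
noncomputable def wt {n : ℕ} (L : Set D) (p q : (X n) → ℝ) (b : Fin 2)
    (y : X n) : ℝ :=
  if b = 0 then (if y ∈ slice L n then q y else 0) else (if y ∈ slice Lᶜ n then p y else 0)

open Classical in
theorem approx {K : Set (Set (List D))} (hK : NPLikeD K) {L : Set D}
    (hLc : ¬ InPolyD K Lᶜ) {G' : Type} [Preorder G'] [Fintype G'] {m : ℕ}
    {c' : List D → G'} (hc' : KMap K c') (A : (Fin m → Fin 2) → G' → Prop)
    (hA : ∀ u, A (typ L m u) (c' u)) (ε : ℝ) (hε : 0 < ε) (hε1 : ε ≤ 1) :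
    ∃ π : (Fin m → Fin 2) → G' → ℝ, StochSel A π ∧
      ∀ x i, x i = 0 → ∀ D : Set G', IsLowerSet D →
        mass (π (Function.update x i 1)) D ≤ mass (π x) D + ε := by
  obtain ⟨n, p, q, hp, hq, hgap⟩ : ∃ (n : ℕ) (p q : (X n) → ℝ),
      IsProb (slice Lᶜ n) p ∧ IsProb (slice L n) q ∧ ∀ θ : Test G' m n, ¬ Gap c' L ε p q θ := by
    by_contra hcon
    push Not at hcon
    exact hLc (inPoly_of_gap hK c' hc' L ε hε hε1 hcon)
  have hw0 : ∀ b y, 0 ≤ wt L p q b y := by
    intro b y
    unfold wt
    split_ifs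
    · exact hq.1 y
    · exact le_rfl
    · exact hp.1 y
    · exact le_rfl
  have hw1 : ∀ b, ∑ y, wt L p q b y = 1 := by
    intro b
    unfold wt
    by_cases hb : b = 0
    · simp only [hb, if_true]
      rw [← Finset.sum_filter]
      have : Finset.univ.filter (fun y => y ∈ slice L n) = slice L n := by
        ext y; simp
      rw [this]; exact hq.2
    · simp only [hb, if_false]
      rw [← Finset.sum_filter]
      have : Finset.univ.filter (fun y => y ∈ slice Lᶜ n) = slice Lᶜ n := by
        ext y; simp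
      rw [this]; exact hp.2
  let π : (Fin m → Fin 2) → G' → ℝ := fun x g =>
    Ex (fun i => wt L p q (x i)) (fun z => if c' (seq z) = g then 1 else 0)
  have hmass : ∀ x (D : Set G'), mass (π x) D =
      Ex (fun i => wt L p q (x i)) (fun z => if c' (seq z) ∈ D then 1 else 0) := by
    intro x D
    unfold mass
    simp only [π, Ex]
    rw [Finset.sum_comm]
    apply Finset.sum_congr rfl
    intro z _
    rw [← Finset.mul_sum]
    congr 1
    rw [Finset.sum_ite_eq]
    simp
  refine ⟨π, ⟨?_, ?_, ?_⟩, ?_⟩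
  · intro x g
    apply Finset.sum_nonneg
    intro z _
    apply mul_nonneg (Finset.prod_nonneg (fun i _ => hw0 _ _))
    dsimp only
    split_ifs <;> norm_num
  · intro x
    have h1 := hmass x Set.univ
    unfold mass at h1
    simp only [Set.mem_univ, Finset.filter_true, if_true] at h1
    rw [h1]
    unfold Ex
    simp only [mul_one]
    exact sum_prod_one _ (fun i => hw1 (x i))
  · intro x g hg
    simp only [π, Ex] at hg
    obtain ⟨z, _, hz⟩ := Finset.exists_ne_zero_of_sum_ne_zero hg
    have h1 : (∏ i, wt L p q (x i) (z i)) ≠ 0 := left_ne_zero_of_mul hz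
    have h2 : (if c' (seq z) = g then (1:ℝ) else 0) ≠ 0 := right_ne_zero_of_mul hz
    have h3 : c' (seq z) = g := by
      by_contra h; exact h2 (if_neg h)
    have h4 : typ L m (seq z) = x := by
      funext i
      have h5 := Finset.prod_ne_zero_iff.1 h1 i (Finset.mem_univ i)
      unfold wt at h5
      by_cases hb : x i = 0
      · rw [if_pos hb] at h5
        have h6 : z i ∈ slice L n := by
          by_contra h; exact h5 (if_neg h)
        rw [hb, typ_seq]
        exact mem_slice.1 h6
      · rw [if_neg hb] at h5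
        have h6 : z i ∈ slice Lᶜ n := by
          by_contra h; exact h5 (if_neg h)
        have h7 : (z i).1 ∈ Lᶜ := mem_slice.1 h6
        have h8 : typ L m (seq z) i ≠ 0 := fun h => h7 ((typ_seq z i).1 h)
        omega
    have h5 := hA (seq z)
    rw [h4, h3] at h5
    exact h5
  · intro x i hi D hD
    rw [hmass, hmass]
    refine Ex_hybrid i (fun j => wt L p q (x j)) (fun j => wt L p q (Function.update x i 1 j)) _
      (fun j y => hw0 _ _) (fun j => hw1 _) ?_ ε ?_
    · intro j hj
      simp only [Function.update_of_ne hj]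
    · intro z
      have h1 := hgap (i, z, ⟨D, hD⟩)
      unfold Gap at h1
      push Not at h1
      have e1 : ∑ y, wt L p q (x i) y * (if c' (seq (Function.update z i y)) ∈ D then (1:ℝ) else 0) =
          ∑ y ∈ slice L n with hitT c' (i, z, ⟨D, hD⟩) y, q y := by
        unfold wt
        simp only [hi, if_true]
        rw [Finset.sum_filter, ← Finset.sum_filter_add_sum_filter_not Finset.univ
          (fun y => y ∈ slice L n)]
        have e2 : ∑ y with ¬ y ∈ slice L n, (if y ∈ slice L n then q y else 0) *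
            (if c' (seq (Function.update z i y)) ∈ D then (1:ℝ) else 0) = 0 := by
          apply Finset.sum_eq_zero
          intro y hy
          rw [if_neg (Finset.mem_filter.1 hy).2, zero_mul]
        rw [e2, add_zero]
        have e3 : Finset.univ.filter (fun y => y ∈ slice L n) = slice L n := by
          ext y; simp
        rw [e3]
        apply Finset.sum_congr rfl
        intro y hy
        rw [if_pos hy]
        unfold hitT
        simp
      have e4 : ∑ y, wt L p q (Function.update x i 1 i) y *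
          (if c' (seq (Function.update z i y)) ∈ D then (1:ℝ) else 0) =
          ∑ y ∈ slice Lᶜ n with hitT c' (i, z, ⟨D, hD⟩) y, p y := by
        unfold wt
        simp only [Function.update_self, one_ne_zero, if_false]
        rw [Finset.sum_filter, ← Finset.sum_filter_add_sum_filter_not Finset.univ
          (fun y => y ∈ slice Lᶜ n)]
        have e2 : ∑ y with ¬ y ∈ slice Lᶜ n, (if y ∈ slice Lᶜ n then p y else 0) *
            (if c' (seq (Function.update z i y)) ∈ D then (1:ℝ) else 0) = 0 := by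
          apply Finset.sum_eq_zero
          intro y hy
          rw [if_neg (Finset.mem_filter.1 hy).2, zero_mul]
        rw [e2, add_zero]
        have e3 : Finset.univ.filter (fun y => y ∈ slice Lᶜ n) = slice Lᶜ n := by
          ext y; simp
        rw [e3]
        apply Finset.sum_congr rfl
        intro y hy
        rw [if_pos hy]
        unfold hitT
        simp
      rw [e1, e4]
      exact h1.le

theorem exact_sel {K : Set (Set (List D))} (hK : NPLikeD K) {L : Set D}
    (hLc : ¬ InPolyD K Lᶜ) {G' : Type} [Preorder G'] [Fintype G'] {m : ℕ}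
    {c' : List D → G'} (hc' : KMap K c') (A : (Fin m → Fin 2) → G' → Prop)
    (hA : ∀ u, A (typ L m u) (c' u)) :
    ∃ π : (Fin m → Fin 2) → G' → ℝ, StochSel A π ∧
      ∀ x x', x ≤ x' → ∀ D : Set G', IsLowerSet D → mass (π x') D ≤ mass (π x) D := by
  classical
  have hex : ∀ k : ℕ, ∃ π : (Fin m → Fin 2) → G' → ℝ, StochSel A π ∧
      ∀ x i, x i = 0 → ∀ D : Set G', IsLowerSet D →
        mass (π (Function.update x i 1)) D ≤ mass (π x) D + 1 / ((k : ℝ) + 1) := by
    intro k
    refine approx hK hLc hc' A hA (1 / ((k : ℝ) + 1)) (by positivity) ?_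
    rw [div_le_one (by positivity)]
    have : (0 : ℝ) ≤ k := Nat.cast_nonneg k
    linarith
  choose π hπ1 hπ2 using hex
  have hmem : ∀ k, π k ∈ Set.Icc (0 : (Fin m → Fin 2) → G' → ℝ) 1 := by
    intro k
    constructor
    · intro x g; exact (hπ1 k).1 x g
    · intro x g
      have h1 := (hπ1 k).2.1 x
      have h2 : π k x g ≤ ∑ g, π k x g :=
        Finset.single_le_sum (f := fun g => π k x g) (fun g _ => (hπ1 k).1 x g)
          (Finset.mem_univ g)
      rw [h1] at h2
      exact h2
  obtain ⟨ρ, _, φ, hφ, hlim⟩ := (isCompact_Icc).tendsto_subseq hmem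
  have hpt : ∀ x g, Tendsto (fun k => π (φ k) x g) atTop (𝓝 (ρ x g)) := by
    intro x g
    have h1 := tendsto_pi_nhds.1 hlim x
    exact tendsto_pi_nhds.1 h1 g
  have hmasslim : ∀ x (D : Set G'), Tendsto (fun k => mass (π (φ k) x) D) atTop
      (𝓝 (mass (ρ x) D)) := by
    intro x D
    unfold mass
    exact tendsto_finsetSum _ (fun g _ => hpt x g)
  refine ⟨ρ, ⟨fun x g => ge_of_tendsto' (hpt x g) (fun k => (hπ1 _).1 x g), fun x => ?_,
    fun x g hg => ?_⟩, ?_⟩
  · have h1 : Tendsto (fun k => ∑ g, π (φ k) x g) atTop (𝓝 (∑ g, ρ x g)) :=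
      tendsto_finsetSum _ (fun g _ => hpt x g)
    have h2 : Tendsto (fun k => ∑ g, π (φ k) x g) atTop (𝓝 1) := by
      simp only [(hπ1 _).2.1 x]
      exact tendsto_const_nhds
    exact tendsto_nhds_unique h1 h2
  · by_contra hcon
    apply hg
    have h1 : ∀ k, π (φ k) x g = 0 := by
      intro k
      by_contra hne
      exact hcon ((hπ1 _).2.2 x g hne)
    have h2 := hpt x g
    simp only [h1] at h2
    exact tendsto_nhds_unique h2 tendsto_const_nhds
  · intro x x' hxx D hD
    refine mono_of_flip (fun x => mass (ρ x) D) (fun x i hi => ?_) x x' hxx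
    have h1 : Tendsto (fun k => mass (π (φ k) x) D + 1 / (((φ k : ℕ) : ℝ) + 1)) atTop
        (𝓝 (mass (ρ x) D + 0)) := by
      apply (hmasslim x D).add
      exact (tendsto_one_div_add_atTop_nhds_zero_nat (𝕜 := ℝ)).comp hφ.tendsto_atTop
    rw [add_zero] at h1
    exact le_of_tendsto_of_tendsto' (hmasslim _ D) h1 (fun k => hπ2 (φ k) x i hi D hD)


/-- The stochastic embedding theorem for NP on trees. -/
theorem stochasticD (hard : CoHardD K1)
    {G G' : Type} [Lattice G] [BoundedOrder G] [Finite G] [Lattice G'] [BoundedOrder G']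
    [Fintype G'] {k : ℕ} (f : G → Fin k) (f' : G' → Fin k) (hsub : Cls K1 f ⊆ Cls K1 f') :
    ∃ π : G → G' → ℝ, StochSel (fun x y => f' y = f x) π ∧
      ∀ x x', x ≤ x' → ∀ D : Set G', IsLowerSet D → mass (π x') D ≤ mass (π x) D := by
  obtain ⟨L, hL, hLc⟩ := hard
  obtain ⟨m, μ, ν, hμ, hν, hμν⟩ := exists_bool_retract G
  rw [cls_subset_iff] at hsub
  obtain ⟨c', hc', hz⟩ := hsub (μ ∘ typ L m)
    ((typ_kmap npLike_K1 hL m).comp npLike_K1.empty_mem npLike_K1.union hμ)
  obtain ⟨π, ⟨h1, h2, h3⟩, h4⟩ := exact_sel npLike_K1 hLc hc' (fun x g => f' g = f (μ x)) hz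
  refine ⟨fun x => π (ν x), ⟨fun x g => h1 _ g, fun x => h2 _, fun x g hg => ?_⟩,
    fun x x' hxx D hD => h4 _ _ (hν hxx) D hD⟩
  have h5 : f' g = f (μ (ν x)) := h3 (ν x) g hg
  rwa [hμν] at h5

/-- Transport of an inclusion from words to sequences of trees. -/
theorem transport {s : ℕ} (hs : 2 ≤ s) {G G' : Type} [Lattice G] [BoundedOrder G] [Finite G]
    [Lattice G'] [BoundedOrder G'] [Finite G'] {k : ℕ} (f : G → Fin k) (f' : G' → Fin k)
    (hsub : Cls (NP s) f ⊆ Cls (NP s) f') : Cls K1 f ⊆ Cls K1 f' := by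
  obtain ⟨F, hF, hFd⟩ := exists_fdec
  obtain ⟨H, hH, hHc⟩ := exists_fcod
  let z₀ : Fin s := ⟨0, by omega⟩
  let z₁ : Fin s := ⟨1, by omega⟩
  rw [cls_subset_iff] at hsub ⊢
  intro c hc
  obtain ⟨c', hc', hz⟩ := hsub (fun x : List (Fin s) => c (toL (dec x))) (by
    intro a
    obtain ⟨B, hB, hcB⟩ := hc a
    refine ⟨_, (cl 1).pre _ hB _ hF, fun x => ?_⟩
    show c (toL (dec x)) ≤ a ↔ F (enc x) ∈ B
    rw [hFd, ← ofL_toL (dec x), ← hcB, toL_ofL]
    rfl)
  refine ⟨fun u => c' (cod z₀ z₁ (ofL u)), ?_, fun u => ?_⟩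
  · intro a
    obtain ⟨B, hB, hcB⟩ := hc' a
    refine ⟨_, (cl 1).pre _ hB _ hH, fun u => ?_⟩
    show c' (cod z₀ z₁ (ofL u)) ≤ a ↔ H (ofL u) ∈ B
    rw [hHc s z₀ z₁ rfl rfl, ← hcB]
    rfl
  · have := hz (cod z₀ z₁ (ofL u))
    rw [dec_cod rfl rfl, toL_ofL] at this
    exact this

/-- If the polynomial time hierarchy does not collapse, an inclusion gives a stochastic
embedding. -/
theorem stochastic_np {s : ℕ} (hs : 2 ≤ s) (hPH : PHInfinite s)
    {G G' : Type} [Lattice G] [BoundedOrder G] [Finite G] [Lattice G'] [BoundedOrder G']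
    [Fintype G'] {k : ℕ} (f : G → Fin k) (f' : G' → Fin k)
    (hsub : Cls (NP s) f ⊆ Cls (NP s) f') :
    ∃ π : G → G' → ℝ, StochSel (fun x y => f' y = f x) π ∧
      ∀ x x', x ≤ x' → ∀ D : Set G', IsLowerSet D → mass (π x') D ≤ mass (π x) D :=
  stochasticD (cohard_of_ph hPH) f f' (transport hs f f' hsub)

end Pool.Agent.Lib.EC4075.PH
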