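import Pool.Agent.Lib.MP_4075bc_lc.PH.Data

/-! # Basic programming in the function algebra -/

namespace Pool.Agent.Lib.EC4075.PH

open D

/-! ## Sizes -/

theorem size_hd (x : D) : x.hd.size ≤ x.size := by
  cases x with
  | nil => simp [D.hd]
  | cons a b => simp only [D.hd, D.size]; omega

theorem size_tl (x : D) : x.tl.size ≤ x.size := by
  cases x with
  | nil => simp [D.tl]
  | cons a b => simp only [D.tl, D.size]; omega

theorem size_unary (n : ℕ) : (unary n).size = n := by
  induction n with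
  | zero => rfl
  | succ n ih => simp [D.unary, D.size, ih]

theorem len_unary (n : ℕ) : (unary n).len = n := by
  induction n with
  | zero => rfl
  | succ n ih => simp [D.unary, D.len, ih]

theorem len_le_size (x : D) : x.len ≤ x.size := by
  induction x with
  | nil => simp [D.len]
  | cons a b _ ih => simp only [D.len, D.size]; omega

theorem size_cond (a b c : D) : (cond a b c).size ≤ b.size + c.size := by
  cases a <;> simp [D.cond]

/-! ## Polynomial bounds -/

/-- Polynomially bounded. -/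
def Poly (p : D → ℕ) : Prop := ∃ c : ℕ, ∀ x, p x ≤ c * (x.size + 1) ^ c

theorem bd_mono {c c' n : ℕ} (h : c ≤ c') : c * (n + 1) ^ c ≤ c' * (n + 1) ^ c' :=
  Nat.mul_le_mul h (Nat.pow_le_pow_right (Nat.succ_pos n) h)

theorem one_le_pw (n c : ℕ) : 1 ≤ (n + 1) ^ c := Nat.one_le_pow _ _ (Nat.succ_pos n)

theorem Poly.mono {p q : D → ℕ} (hq : Poly q) (h : ∀ x, p x ≤ q x) : Poly p := by
  obtain ⟨c, hc⟩ := hq
  exact ⟨c, fun x => (h x).trans (hc x)⟩

theorem Poly.const (n : ℕ) : Poly (fun _ => n) :=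
  ⟨n, fun x => Nat.le_mul_of_pos_right _ (one_le_pw _ _)⟩

theorem Poly.add {p q : D → ℕ} (hp : Poly p) (hq : Poly q) : Poly (fun x => p x + q x) := by
  obtain ⟨c, hc⟩ := hp
  obtain ⟨d, hd⟩ := hq
  refine ⟨c + d, fun x => ?_⟩
  have h1 : p x ≤ c * (x.size + 1) ^ (c + d) :=
    (hc x).trans (Nat.mul_le_mul_left _ (Nat.pow_le_pow_right (Nat.succ_pos _) (by omega)))
  have h2 : q x ≤ d * (x.size + 1) ^ (c + d) :=
    (hd x).trans (Nat.mul_le_mul_left _ (Nat.pow_le_pow_right (Nat.succ_pos _) (by omega)))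
  rw [Nat.add_mul]
  exact Nat.add_le_add h1 h2

theorem Poly.mul {p q : D → ℕ} (hp : Poly p) (hq : Poly q) : Poly (fun x => p x * q x) := by
  obtain ⟨c, hc⟩ := hp
  obtain ⟨d, hd⟩ := hq
  refine ⟨c * d + (c + d), fun x => ?_⟩
  calc p x * q x ≤ (c * (x.size + 1) ^ c) * (d * (x.size + 1) ^ d) := Nat.mul_le_mul (hc x) (hd x)
    _ = c * d * (x.size + 1) ^ (c + d) := by rw [pow_add]; ring
    _ ≤ (c * d + (c + d)) * (x.size + 1) ^ (c * d + (c + d)) :=
        Nat.mul_le_mul (by omega) (Nat.pow_le_pow_right (Nat.succ_pos _) (by omega))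

theorem Poly.pow {p : D → ℕ} (hp : Poly p) (n : ℕ) : Poly (fun x => p x ^ n) := by
  induction n with
  | zero => simpa using Poly.const 1
  | succ n ih => simpa [pow_succ] using ih.mul hp

theorem Poly.id : Poly (fun x => x.size) :=
  ⟨1, fun x => by simp⟩

theorem Poly.comp' {p : D → ℕ} (hp : Poly p) {f : D → D} (hf : Poly (fun x => (f x).size)) :
    Poly (fun x => p (f x)) := by
  obtain ⟨c, hc⟩ := hp
  have h1 : Poly (fun x => c * ((f x).size + 1) ^ c) :=
    (Poly.const c).mul ((hf.add (Poly.const 1)).pow c)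
  exact h1.mono (fun x => hc (f x))

theorem FP.poly {f : D → D} (hf : FP f) : Poly (fun x => (f x).size) := by
  induction hf with
  | id => exact Poly.id
  | nil => exact Poly.const 0
  | hd => exact Poly.id.mono size_hd
  | tl => exact Poly.id.mono size_tl
  | size => exact Poly.id.mono (fun x => (size_unary _).le)
  | cons _ _ ih1 ih2 =>
    exact ((ih1.add ih2).add (Poly.const 1)).mono (fun x => by simp [D.size])
  | comp _ _ ih1 ih2 => exact ih1.comp' ih2
  | cond _ _ _ _ ih2 ih3 => exact (ih2.add ih3).mono (fun x => size_cond _ _ _)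
  | iter _ _ _ hb _ _ _ =>
    obtain ⟨c, hc⟩ := hb
    exact ⟨c, fun x => hc x _ le_rfl⟩

theorem Poly.comp {p : D → ℕ} (hp : Poly p) {f : D → D} (hf : FP f) : Poly (fun x => p (f x)) :=
  hp.comp' hf.poly

/-- Iteration with a polynomial bound. -/
theorem FP.iter' {f g h : D → D} (hf : FP f) (hg : FP g) (hh : FP h) (b : D → ℕ) (hb : Poly b)
    (hbd : ∀ x k, k ≤ (h x).len → (f^[k] (g x)).size ≤ b x) :
    FP (fun x => f^[(h x).len] (g x)) := by
  obtain ⟨c, hc⟩ := hb
  exact FP.iter hf hg hh ⟨c, fun x k hk => (hbd x k hk).trans (hc x)⟩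

/-! ## Numerical functions -/

/-- Numerical functions computable in polynomial time (unary output). -/
def FPN (p : D → ℕ) : Prop := FP (fun x => unary (p x))

theorem FPN.poly {p : D → ℕ} (hp : FPN p) : Poly p :=
  (FP.poly hp).mono (fun x => (size_unary _).ge)

theorem FPN.congr {p q : D → ℕ} (hp : FPN p) (h : ∀ x, p x = q x) : FPN q := by
  have : p = q := funext h
  rwa [← this]

theorem FPN.comp {p : D → ℕ} (hp : FPN p) {f : D → D} (hf : FP f) : FPN (fun x => p (f x)) :=
  FP.comp (f := fun x => unary (p x)) hp hf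

theorem FPN.size {f : D → D} (hf : FP f) : FPN (fun x => (f x).size) :=
  FP.comp FP.size hf

theorem FP.unary (n : ℕ) : FP (fun _ => unary n) := by
  induction n with
  | zero => exact FP.nil
  | succ n ih => exact FP.cons FP.nil ih

theorem FPN.const (n : ℕ) : FPN (fun _ => n) := FP.unary n

theorem iter_cons_nil (k m : ℕ) : (fun z => D.cons D.nil z)^[k] (unary m) = unary (k + m) := by
  induction k with
  | zero => simp
  | succ k ih =>
    rw [Function.iterate_succ_apply', ih, Nat.succ_add]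
    rfl

theorem FPN.add {p q : D → ℕ} (hp : FPN p) (hq : FPN q) : FPN (fun x => p x + q x) := by
  have h := FP.iter' (f := fun z => D.cons D.nil z) (FP.cons FP.nil FP.id) hq hp
    (fun x => p x + q x) (hp.poly.add hq.poly) (by
      intro x k hk
      rw [len_unary] at hk
      rw [iter_cons_nil, size_unary]
      omega)
  have e : (fun x => (fun z => D.cons D.nil z)^[(D.unary (p x)).len] (D.unary (q x))) =
      fun x => D.unary (p x + q x) := by
    funext x
    rw [len_unary, iter_cons_nil]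
  rw [e] at h
  exact h

theorem FPN.len {f : D → D} (hf : FP f) : FPN (fun x => (f x).len) := by
  have h := FP.iter' (f := fun z => D.cons D.nil z) (FP.cons FP.nil FP.id) (FPN.const 0) hf
    (fun x => (f x).size) hf.poly (by
      intro x k hk
      rw [iter_cons_nil, size_unary]
      have := len_le_size (f x)
      show k + 0 ≤ (f x).size
      omega)
  have e : (fun x => (fun z => D.cons D.nil z)^[(f x).len] (D.unary 0)) =
      fun x => D.unary ((f x).len) := by
    funext x
    rw [iter_cons_nil, Nat.add_zero]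
  rw [e] at h
  exact h

/-- Bounded sums. -/
theorem FPN.bsum {q p : D → ℕ} (hq : FPN q) (hp : FPN p) :
    FPN (fun x => ∑ i ∈ Finset.range (p x), q (D.cons x (unary i))) := by
  -- state: `cons (cons x (unary i)) acc`
  let st : D → D := fun z => D.cons (D.cons z.hd.hd (D.cons D.nil z.hd.tl))
    (unary (z.tl.size + q z.hd))
  have hst : FP st := by
    refine FP.cons (FP.cons (FP.comp FP.hd FP.hd) (FP.cons FP.nil (FP.comp FP.tl FP.hd))) ?_
    exact FPN.add (FPN.size FP.tl) (FPN.comp hq FP.hd)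
  have key : ∀ x k, st^[k] (D.cons (D.cons x (unary 0)) (unary 0)) =
      D.cons (D.cons x (unary k)) (unary (∑ i ∈ Finset.range k, q (D.cons x (unary i)))) := by
    intro x k
    induction k with
    | zero => simp [D.unary]
    | succ k ih =>
      rw [Function.iterate_succ_apply', ih]
      simp only [st, D.hd, D.tl, size_unary, Finset.sum_range_succ]
      rfl
  obtain ⟨c, hc⟩ := hq.poly
  have h := FP.iter' hst (g := fun x => D.cons (D.cons x (unary 0)) (unary 0)) (h := fun x => unary (p x))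
    (FP.cons (FP.cons FP.id (FP.unary 0)) (FP.unary 0)) hp
    (fun x => x.size + p x + 2 + p x * (c * (x.size + p x + 2) ^ c))
    (((Poly.id.add hp.poly).add (Poly.const 2)).add
      (hp.poly.mul ((Poly.const c).mul (((Poly.id.add hp.poly).add (Poly.const 2)).pow c)))) (by
      intro x k hk
      rw [len_unary] at hk
      rw [key]
      simp only [D.size, size_unary]
      have h1 : ∑ i ∈ Finset.range k, q (D.cons x (unary i)) ≤
          ∑ i ∈ Finset.range k, c * (x.size + p x + 2) ^ c := by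
        apply Finset.sum_le_sum
        intro i hi
        refine (hc _).trans ?_
        apply Nat.mul_le_mul_left
        apply Nat.pow_le_pow_left
        simp only [D.size, size_unary]
        have := Finset.mem_range.1 hi
        omega
      rw [Finset.sum_const, Finset.card_range, smul_eq_mul] at h1
      have h2 : k * (c * (x.size + p x + 2) ^ c) ≤ p x * (c * (x.size + p x + 2) ^ c) :=
        Nat.mul_le_mul_right _ hk
      omega)
  have h2 := FP.comp FP.tl h
  have e : (fun x => (st^[(unary (p x)).len] (D.cons (D.cons x (unary 0)) (unary 0))).tl) =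
      fun x => unary (∑ i ∈ Finset.range (p x), q (D.cons x (unary i))) := by
    funext x
    rw [len_unary, key]
    rfl
  rw [e] at h2
  exact h2

theorem FPN.mul {p q : D → ℕ} (hp : FPN p) (hq : FPN q) : FPN (fun x => p x * q x) := by
  have h := FPN.bsum (q := fun z => q z.hd) (hq.comp FP.hd) hp
  refine h.congr (fun x => ?_)
  simp [D.hd]

theorem FPN.pow {p : D → ℕ} (hp : FPN p) (n : ℕ) : FPN (fun x => p x ^ n) := by
  induction n with
  | zero => exact (FPN.const 1).congr (fun x => by simp)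
  | succ n ih => exact (ih.mul hp).congr (fun x => by rw [pow_succ])

/-- The standard polynomial bound. -/
theorem FPN.bd (c : ℕ) {p : D → ℕ} (hp : FPN p) : FPN (fun x => c * (p x + 1) ^ c) :=
  (FPN.const c).mul ((hp.add (FPN.const 1)).pow c)

/-! ## Polynomial time sets -/

/-- Membership in `Σ_0`. -/
theorem mem_sig_zero {A : Set D} : A ∈ Sig 0 ↔ ∃ f : D → D, FP f ∧ ∀ x, x ∈ A ↔ f x ≠ D.nil :=
  Iff.rfl

theorem cond_ne_nil_iff (a b c : D) : cond a b c ≠ D.nil ↔ (a = D.nil ∧ b ≠ D.nil) ∨
    (a ≠ D.nil ∧ c ≠ D.nil) := by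
  cases a <;> simp [D.cond]

theorem P.compl {A : Set D} (hA : A ∈ Sig 0) : Aᶜ ∈ Sig 0 := by
  obtain ⟨f, hf, h⟩ := hA
  refine ⟨_, FP.cond hf (FP.unary 1) FP.nil, fun x => ?_⟩
  rw [Set.mem_compl_iff, h x, cond_ne_nil_iff]
  simp [D.unary]

theorem P.inter {A B : Set D} (hA : A ∈ Sig 0) (hB : B ∈ Sig 0) : A ∩ B ∈ Sig 0 := by
  obtain ⟨f, hf, h⟩ := hA
  obtain ⟨g, hg, h'⟩ := hB
  refine ⟨_, FP.cond hf FP.nil hg, fun x => ?_⟩
  rw [Set.mem_inter_iff, h x, h' x, cond_ne_nil_iff]
  simp

theorem P.union {A B : Set D} (hA : A ∈ Sig 0) (hB : B ∈ Sig 0) : A ∪ B ∈ Sig 0 := by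
  obtain ⟨f, hf, h⟩ := hA
  obtain ⟨g, hg, h'⟩ := hB
  refine ⟨_, FP.cond hf hg (FP.unary 1), fun x => ?_⟩
  rw [Set.mem_union, h x, h' x, cond_ne_nil_iff]
  simp [D.unary]
  tauto

theorem P.univ : (Set.univ : Set D) ∈ Sig 0 :=
  ⟨_, FP.unary 1, fun x => by simp [D.unary]⟩

theorem P.empty : (∅ : Set D) ∈ Sig 0 :=
  ⟨_, FP.nil, fun x => by simp⟩

theorem P.pre {A : Set D} (hA : A ∈ Sig 0) {f : D → D} (hf : FP f) : {x | f x ∈ A} ∈ Sig 0 := by
  obtain ⟨g, hg, h⟩ := hA
  exact ⟨_, FP.comp hg hf, fun x => h (f x)⟩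

theorem P.ne_nil {f : D → D} (hf : FP f) : {x | f x ≠ D.nil} ∈ Sig 0 :=
  ⟨f, hf, fun _ => Iff.rfl⟩

theorem P.eq_nil {f : D → D} (hf : FP f) : {x | f x = D.nil} ∈ Sig 0 := by
  have := P.compl (P.ne_nil hf)
  have e : ({x | f x ≠ D.nil} : Set D)ᶜ = {x | f x = D.nil} := by
    ext x; simp
  rwa [e] at this

theorem iter_tl_eq_nil (k : ℕ) (a : D) : D.tl^[k] a = D.nil ↔ a.len ≤ k := by
  induction k generalizing a with
  | zero =>
    cases a <;> simp [D.len]
  | succ k ih =>
    rw [Function.iterate_succ_apply, ih]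
    cases a with
    | nil => simp [D.tl, D.len]
    | cons a b => simp [D.tl, D.len]

theorem size_iter_tl (k : ℕ) (a : D) : (D.tl^[k] a).size ≤ a.size := by
  induction k with
  | zero => exact le_rfl
  | succ k ih =>
    rw [Function.iterate_succ_apply']
    exact (size_tl _).trans ih

theorem FP.iterTl {f : D → D} (hf : FP f) {p : D → ℕ} (hp : FPN p) :
    FP (fun x => D.tl^[p x] (f x)) := by
  have h := FP.iter' (f := fun z => z.tl) FP.tl hf hp (fun x => (f x).size) hf.poly
    (fun x k _ => size_iter_tl k (f x))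
  have e : (fun x => (fun z : D => z.tl)^[(D.unary (p x)).len] (f x)) =
      fun x => D.tl^[p x] (f x) := by
    funext x; rw [len_unary]
  rw [e] at h
  exact h

theorem P.le {p q : D → ℕ} (hp : FPN p) (hq : FPN q) : {x | p x ≤ q x} ∈ Sig 0 := by
  have h := P.eq_nil (FP.iterTl hp hq)
  have e : {x | D.tl^[q x] (unary (p x)) = D.nil} = {x | p x ≤ q x} := by
    ext x
    rw [Set.mem_ofPred_eq, iter_tl_eq_nil, len_unary]
    rfl
  rwa [e] at h

theorem P.eq {p q : D → ℕ} (hp : FPN p) (hq : FPN q) : {x | p x = q x} ∈ Sig 0 := by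
  have h := P.inter (P.le hp hq) (P.le hq hp)
  have e : {x | p x ≤ q x} ∩ {x | q x ≤ p x} = {x | p x = q x} := by
    ext x
    simp only [Set.mem_inter_iff, Set.mem_ofPred_eq]
    omega
  rwa [e] at h

/-- Indicator functions of polynomial time sets. -/
theorem FPN.ind {A : Set D} [DecidablePred (· ∈ A)] (hA : A ∈ Sig 0) :
    FPN (fun x => if x ∈ A then 1 else 0) := by
  obtain ⟨f, hf, h⟩ := hA
  have h1 := FP.cond hf FP.nil (FP.unary 1)
  have e : (fun x => cond (f x) D.nil (unary 1)) = fun x => unary (if x ∈ A then 1 else 0) := by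
    funext x
    by_cases hx : x ∈ A
    · rw [if_pos hx]
      have := (h x).1 hx
      cases hfx : f x with
      | nil => exact absurd hfx this
      | cons a b => rfl
    · rw [if_neg hx]
      have : f x = D.nil := by
        by_contra hne; exact hx ((h x).2 hne)
      rw [this]; rfl
  rw [e] at h1
  exact h1

/-- Bounded universal quantification over positions. -/
theorem P.ball {A : Set D} (hA : A ∈ Sig 0) {p : D → ℕ} (hp : FPN p) :
    {x | ∀ i < p x, D.cons x (unary i) ∈ A} ∈ Sig 0 := by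
  classical
  have h1 : FPN (fun x => ∑ i ∈ Finset.range (p x), if D.cons x (unary i) ∈ Aᶜ then 1 else 0) :=
    FPN.bsum (FPN.ind (P.compl hA)) hp
  have h2 := P.eq h1 (FPN.const 0)
  have e : {x | ∑ i ∈ Finset.range (p x), (if D.cons x (unary i) ∈ Aᶜ then 1 else 0) = 0} =
      {x | ∀ i < p x, D.cons x (unary i) ∈ A} := by
    ext x
    simp [Finset.sum_eq_zero_iff]
  rwa [e] at h2

end Pool.Agent.Lib.EC4075.PH
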